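import Pool.Agent.H23.DM.TargetsI

/-!
# (CH) the ideals of a chain
-/

set_option autoImplicit false

open NumberField

namespace Pool.Agent.H95.DM.CH

open Pool.Agent.H23.DM Pool.Agent.H23.LB

section aux

variable {K : Type} [Field K] [NumberField K]

private lemma Nf_mul (I J : Ideal (𝓞 K)) : Nf K (I * J) = Nf K I * Nf K J := by
  unfold Nf
  rw [map_mul, Nat.cast_mul]

private lemma Nf_le (I J : Ideal (𝓞 K)) (h : J ≤ I) (hJ : J ≠ ⊥) : Nf K I ≤ Nf K J := by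
  unfold Nf
  have h1 : 0 < Ideal.absNorm J :=
    Nat.pos_of_ne_zero fun h0 => hJ (Ideal.absNorm_eq_zero_iff.1 h0)
  exact_mod_cast Nat.le_of_dvd h1 (Ideal.absNorm_dvd_absNorm_of_le h)

omit [NumberField K] in
private lemma ne_of_le {I J : Ideal (𝓞 K)} (h : I ≤ J) (hI : I ≠ ⊥) : J ≠ ⊥ :=
  fun h0 => hI (le_bot_iff.1 (h0 ▸ h))

omit [NumberField K] in
private lemma mul_ne {I J : Ideal (𝓞 K)} (hI : I ≠ ⊥) (hJ : J ≠ ⊥) : I * J ≠ ⊥ :=
  mul_ne_zero hI hJ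

end aux

theorem pf_CH : D_CH := by
  classical
  intro K _ _ k κ hk hle hrad
  obtain ⟨b, hb⟩ := Ideal.dvd_iff_le.2 hle
  have hle3 : k ≤ κ ^ 3 ⊔ k := le_sup_right
  obtain ⟨b₃, hb₃⟩ := Ideal.dvd_iff_le.2 hle3
  have hκ : κ ≠ ⊥ := ne_of_le hle hk
  have hκ₃ : κ ^ 3 ⊔ k ≠ ⊥ := ne_of_le hle3 hk
  have hb0 : b ≠ ⊥ := fun h => hk (by rw [hb, h, Ideal.mul_bot])
  have hb₃0 : b₃ ≠ ⊥ := by
    intro h
    refine hk ?_
    rw [hb₃, h, Ideal.mul_bot]
  refine ⟨b, κ ^ 3 ⊔ k, b₃, ⟨hle, hrad, hb, rfl, hb₃⟩, hκ, hb0, hκ₃, hb₃0, ?_⟩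
  intro e k' he heκ
  have he0 : e ≠ ⊥ := fun h => hk (by rw [he, h, Ideal.bot_mul])
  have hk' : k' ≠ ⊥ := fun h => hk (by rw [he, h, Ideal.mul_bot])
  have hbk' : b ≤ k' := by
    obtain ⟨e₁, he₁⟩ := Ideal.dvd_iff_le.2 heκ
    have h1 : κ * b = κ * (e₁ * k') := by
      rw [← hb, he, he₁, mul_assoc]
    have h2 : b = e₁ * k' := mul_left_cancel₀ hκ h1
    rw [h2]
    exact Ideal.mul_le_right
  have hr : k.radical ≠ ⊥ := ne_of_le Ideal.le_radical hk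
  refine ⟨hbk', ?_, ?_, ?_, ?_, ?_⟩
  · rw [← Nf_mul, ← he]
  · rw [← Nf_mul, ← hb]
  · rw [← Nf_mul, ← hb₃]
  · intro g hg
    have h1 : e * (e ^ 2 * b₃) ≤ e * k' := by
      rw [← he]
      conv_rhs => rw [hb₃]
      calc e * (e ^ 2 * b₃) = e ^ 3 * b₃ := by ring
        _ ≤ κ ^ 3 * b₃ := Ideal.mul_mono_left (Ideal.pow_right_mono heκ 3)
        _ ≤ (κ ^ 3 ⊔ k) * b₃ := Ideal.mul_mono_left le_sup_left
    have h2 : e ^ 2 * b₃ ≤ k' := by
      have h3 : e * k' ∣ e * (e ^ 2 * b₃) := Ideal.dvd_iff_le.2 h1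
      exact Ideal.dvd_iff_le.1 ((mul_dvd_mul_iff_left he0).1 h3)
    have h4 : e ^ 2 * (k' ⊔ Ideal.span {g}) ≤ k' := by
      rw [Ideal.mul_sup]
      refine sup_le Ideal.mul_le_right ?_
      refine (Ideal.mul_mono_right ?_).trans h2
      rw [Ideal.span_le]
      intro x hx
      rw [Set.mem_singleton_iff.1 hx]
      exact hg
    have h5 := Nf_le _ _ h4 (mul_ne (pow_ne_zero 2 he0) (ne_of_le le_sup_left hk'))
    rw [Nf_mul] at h5
    refine h5.trans_eq ?_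
    congr 1
    unfold Nf
    rw [map_pow, Nat.cast_pow]
  · refine ⟨{ carrier := {x | ∀ t ∈ k.radical, x * t ∈ k'}
              add_mem' := ?_
              zero_mem' := ?_
              smul_mem' := ?_ }, ?_, ?_, ?_⟩
    · intro x y hx hy t ht
      rw [add_mul]
      exact k'.add_mem (hx t ht) (hy t ht)
    · intro t _
      rw [zero_mul]
      exact k'.zero_mem
    · intro c x hx t ht
      rw [smul_eq_mul, mul_assoc]
      exact k'.mul_mem_left c (hx t ht)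
    · intro x hx t _
      exact k'.mul_mem_right t (hbk' hx)
    · intro x
      rfl
    · rw [← Nf_mul]
      refine Nf_le _ _ ?_ (mul_ne (ne_of_le ?_ hk') hr)
      · rw [Ideal.mul_le]
        intro x hx t ht
        exact hx t ht
      · intro x hx t _
        exact k'.mul_mem_right t hx

end Pool.Agent.H95.DM.CH
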