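import Pool.Agent.H23.DM.TargetsI

/-!
# (KP) the ideals `κ(θ)` between `k ^ θ` and `k ^ θ rad k`
-/

set_option autoImplicit false

open NumberField UniqueFactorizationMonoid

namespace Pool.Agent.H95.DM.KP

open Pool.Agent.H23.DM Pool.Agent.H23.LB

section aux

variable {K : Type} [Field K] [NumberField K]

open scoped Classical in
/-- the product of the powers with exponents `a` -/
private noncomputable def pp (r : Ideal (𝓞 K)) (a : Ideal (𝓞 K) → ℕ) : Ideal (𝓞 K) :=
  ∏ P ∈ (normalizedFactors r).toFinset, P ^ a P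

open scoped Classical in
private lemma mem_iff (r P : Ideal (𝓞 K)) (hr : r ≠ ⊥) :
    P ∈ (normalizedFactors r).toFinset ↔ Prime P ∧ r ≤ P := by
  rw [Multiset.mem_toFinset, UniqueFactorizationMonoid.mem_normalizedFactors_iff hr,
    Ideal.dvd_iff_le]

open scoped Classical in
private lemma pp_le (r : Ideal (𝓞 K)) (a b : Ideal (𝓞 K) → ℕ)
    (h : ∀ P ∈ (normalizedFactors r).toFinset, b P ≤ a P) : pp r a ≤ pp r b := by
  rw [← Ideal.dvd_iff_le]
  exact Finset.prod_dvd_prod_of_dvd _ _ fun P hP => pow_dvd_pow P (h P hP)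

open scoped Classical in
private lemma pp_ne (r : Ideal (𝓞 K)) (hr : r ≠ ⊥) (a : Ideal (𝓞 K) → ℕ) : pp r a ≠ ⊥ := by
  refine Finset.prod_ne_zero_iff.2 fun P hP => pow_ne_zero _ ?_
  exact ((mem_iff r P hr).1 hP).1.ne_zero

private lemma pp_mul (r : Ideal (𝓞 K)) (a b : Ideal (𝓞 K) → ℕ) :
    pp r a * pp r b = pp r (fun P => a P + b P) := by
  unfold pp
  rw [← Finset.prod_mul_distrib]
  exact Finset.prod_congr rfl fun P _ => (pow_add _ _ _).symm

private lemma pp_pow (r : Ideal (𝓞 K)) (a : Ideal (𝓞 K) → ℕ) (n : ℕ) :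
    pp r a ^ n = pp r (fun P => a P * n) := by
  unfold pp
  rw [← Finset.prod_pow]
  exact Finset.prod_congr rfl fun P _ => (pow_mul _ _ _).symm

open scoped Classical in
private lemma Nf_pp (r : Ideal (𝓞 K)) (a : Ideal (𝓞 K) → ℕ) :
    Nf K (pp r a) = ∏ P ∈ (normalizedFactors r).toFinset, Nf K P ^ a P := by
  unfold pp Nf
  rw [map_prod, Nat.cast_prod]
  exact Finset.prod_congr rfl fun P _ => by rw [map_pow, Nat.cast_pow]

private lemma one_le_Nf (I : Ideal (𝓞 K)) (h : I ≠ ⊥) : 1 ≤ Nf K I := by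
  unfold Nf
  exact_mod_cast Nat.one_le_iff_ne_zero.2 (fun h0 => h (Ideal.absNorm_eq_zero_iff.1 h0))

private lemma Nf_le (I J : Ideal (𝓞 K)) (h : I ≤ J) (hI : I ≠ ⊥) : Nf K J ≤ Nf K I := by
  unfold Nf
  have h1 : 0 < Ideal.absNorm I :=
    Nat.pos_of_ne_zero fun h0 => hI (Ideal.absNorm_eq_zero_iff.1 h0)
  exact_mod_cast Nat.le_of_dvd h1 (Ideal.absNorm_dvd_absNorm_of_le h)

end aux

theorem pf_KP : D_KP := by
  classical
  intro K _ _ k hk
  have hr : k.radical ≠ ⊥ := fun h => hk (le_bot_iff.1 (h ▸ Ideal.le_radical))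
  set r := k.radical with hrd
  set S := (normalizedFactors r).toFinset with hS
  set n : Ideal (𝓞 K) → ℕ := fun P => (normalizedFactors k).count P with hn
  -- factorization of `k`
  have hkn : pp r n = k := by
    unfold pp
    conv_rhs => rw [← Ideal.prod_normalizedFactors_eq_self hk]
    refine (Finset.prod_multiset_count_of_subset _ _ ?_).symm
    intro P hP
    rw [mem_iff _ _ hk] at hP
    rw [mem_iff _ _ hr]
    exact ⟨hP.1, ((Ideal.isPrime_of_prime hP.1).radical_le_iff).2 hP.2⟩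
  have hn1 : ∀ P ∈ S, 1 ≤ n P := by
    intro P hP
    rw [hn]
    refine Multiset.one_le_count_iff_mem.2 (Multiset.mem_toFinset.1 ?_)
    have h6 := (mem_iff r P hr).1 hP
    rw [mem_iff k P hk]
    exact ⟨h6.1, Ideal.le_radical.trans h6.2⟩
  -- factorization of `r`
  have hrn : r ≤ pp r (fun _ => 1) := by
    conv_lhs => rw [← Ideal.prod_normalizedFactors_eq_self hr, Finset.prod_multiset_count]
    refine pp_le r _ _ fun P hP => ?_
    exact Multiset.one_le_count_iff_mem.2 (Multiset.mem_toFinset.1 hP)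
  have hrn' : pp r (fun _ => 1) ≤ r := by
    conv_rhs => rw [hrd, ← Ideal.radical_idem k, Ideal.radical_eq_sInf]
    refine le_sInf fun J hJ => ?_
    have hJ0 : J ≠ ⊥ := fun h0 => hr (le_bot_iff.1 (h0 ▸ hJ.1))
    have hJS : J ∈ S := (mem_iff r J hr).2 ⟨Ideal.prime_of_isPrime hJ0 hJ.2, hJ.1⟩
    rw [← Ideal.dvd_iff_le]
    unfold pp
    have h9 := Finset.dvd_prod_of_mem (fun P : Ideal (𝓞 K) => P ^ 1) hJS
    rw [hS] at h9
    exact (pow_one J).symm ▸ h9
  have hN1 : ∀ P ∈ S, 1 ≤ Nf K P := fun P hP =>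
    one_le_Nf P ((mem_iff r P hr).1 hP).1.ne_zero
  -- real powers of the norm of `k`
  have hkt : ∀ θ : ℝ, Nf K k ^ θ = ∏ P ∈ S, Nf K P ^ (θ * n P) := by
    intro θ
    conv_lhs => rw [← hkn]
    rw [Nf_pp, ← Real.finsetProd_rpow _ _ (fun P hP => pow_nonneg (by linarith [hN1 P hP]) _)]
    refine Finset.prod_congr rfl fun P hP => ?_
    rw [← Real.rpow_natCast, ← Real.rpow_mul (by linarith [hN1 P hP]), mul_comm]
  have hcmp1 : ∀ (θ : ℝ) (a : Ideal (𝓞 K) → ℕ), (∀ P ∈ S, θ * n P ≤ a P) →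
      Nf K k ^ θ ≤ Nf K (pp r a) := by
    intro θ a h
    rw [hkt, Nf_pp]
    refine Finset.prod_le_prod (fun P hP => Real.rpow_nonneg (by linarith [hN1 P hP]) _)
      fun P hP => ?_
    rw [← Real.rpow_natCast]
    exact Real.rpow_le_rpow_of_exponent_le (hN1 P hP) (h P hP)
  set a : ℝ → Ideal (𝓞 K) → ℕ := fun θ P => max 1 ⌈θ * n P⌉₊ with ha
  have ha1 : ∀ θ P, θ * n P ≤ a θ P := by
    intro θ P
    rw [ha]
    push_cast
    exact (Nat.le_ceil _).trans (le_max_right _ _)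
  refine ⟨fun θ => pp r (a θ), fun θ h0 h1 => ⟨?_, ?_, hcmp1 θ _ fun P _ => ha1 θ P,
    ?_, ?_, ?_⟩⟩
  · conv_lhs => rw [← hkn]
    refine pp_le r _ _ fun P hP => ?_
    refine max_le (hn1 P hP) (Nat.ceil_le.2 ?_)
    have h6 : (0 : ℝ) ≤ n P := Nat.cast_nonneg _
    nlinarith
  · exact (pp_le r _ _ fun P _ => le_max_left _ _).trans hrn'
  · have h2 : Nf K (pp r (fun _ => 1)) ≤ Nf K r := Nf_le _ _ hrn hr
    refine le_trans ?_ (mul_le_mul_of_nonneg_left h2
      (Real.rpow_nonneg (by linarith [one_le_Nf k hk]) _))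
    rw [hkt, Nf_pp, Nf_pp, ← Finset.prod_mul_distrib]
    refine Finset.prod_le_prod (fun P hP => pow_nonneg (by linarith [hN1 P hP]) _)
      fun P hP => ?_
    have h3 : 0 < Nf K P := by linarith [hN1 P hP]
    rw [pow_one, ← Real.rpow_natCast]
    calc Nf K P ^ ((a θ P : ℕ) : ℝ) ≤ Nf K P ^ (θ * n P + 1) := by
          refine Real.rpow_le_rpow_of_exponent_le (hN1 P hP) ?_
          rw [ha]
          push_cast
          refine max_le ?_ ?_
          · have : 0 ≤ θ * n P := mul_nonneg h0 (Nat.cast_nonneg _)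
            linarith
          · exact (Nat.ceil_lt_add_one (mul_nonneg h0 (Nat.cast_nonneg _))).le
      _ = Nf K P ^ (θ * n P) * Nf K P := by
          rw [Real.rpow_add h3, Real.rpow_one]
  · intro h4
    refine ⟨?_, ?_⟩
    · show pp r (a θ) ^ 6 ≤ k
      rw [pp_pow]
      conv_rhs => rw [← hkn]
      refine pp_le r _ _ fun P _ => ?_
      have h5 : (n P : ℝ) ≤ a θ P * 6 := by
        have := ha1 θ P
        have h6 : (0 : ℝ) ≤ n P := Nat.cast_nonneg _
        nlinarith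
      exact_mod_cast h5
    · refine pp_le r _ _ fun P _ => ?_
      refine max_le_max le_rfl (Nat.ceil_le_ceil ?_)
      exact mul_le_mul_of_nonneg_right h4 (Nat.cast_nonneg _)
  · intro h4
    show Nf K k ^ (3 * θ) ≤ Nf K (pp r (a θ) ^ 3 ⊔ k)
    rw [pp_pow]
    set b : Ideal (𝓞 K) → ℕ := fun P => a θ P * 3 with hb
    refine (hcmp1 _ (fun P => min (n P) (b P)) fun P _ => ?_).trans (Nf_le _ _ ?_ ?_)
    · push_cast
      have h6 : (0 : ℝ) ≤ n P := Nat.cast_nonneg _
      refine le_min (by nlinarith) ?_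
      rw [hb]
      push_cast
      have := ha1 θ P
      linarith
    · refine sup_le ?_ ?_
      · exact pp_le r _ _ fun P _ => min_le_right _ _
      · conv_lhs => rw [← hkn]
        exact pp_le r _ _ fun P _ => min_le_left _ _
    · intro h7
      exact hk (le_bot_iff.1 (h7 ▸ le_sup_right))

end Pool.Agent.H95.DM.KP
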